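import Pool.Agent.RST.Ind
import Pool.Agent.RST.MainL

/-!
# MP_33fbc6_co: Robinson-Schensted shapes for cycle types with distinct parts

`SSet α` is the set of the Robinson-Schensted shapes (lists of row lengths) of the permutations of
cycle type `α`; `BSet α` is the set of the partitions `λ` of `n = α.sum` with at most
`n - r + [2 ∈ α]` rows and at most `n - r` columns, `r = card α`.
-/

set_option autoImplicit false

namespace Pool.Agent.Results.MP_33fbc6_co.ShapesOfCycleTypes

open Pool.Agent.RST

/-- For every `r ≥ 3` and every cycle type `α` with `r` distinct parts, all at least `2`: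
`S_α = B_α`. -/
theorem result (α : Multiset ℕ) (hnd : α.Nodup) (h2 : ∀ a ∈ α, 2 ≤ a)
    (h3 : 3 ≤ Multiset.card α) : SSet α = BSet α :=
  eq_of_main (main_of_mainAt mainAt) α hnd h2 h3

end Pool.Agent.Results.MP_33fbc6_co.ShapesOfCycleTypes
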